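import Pool.Agent.Helper85.REC.Stmts7

/-!
# Reciprocity, part 7, row BCH: base change of the absolute Galois group  [helper90]
-/

set_option autoImplicit false

open scoped Classical
open NumberField

namespace REC

open MU (Gal Zb Over CongPow)

/-- BCH: existence of the base change. -/
theorem st_BCH : ST_BCH := by
  intro F K _ _ _ _ _
  haveI : IsAlgClosure F (AlgebraicClosure K) := IsAlgClosure.ofAlgebraic F K (AlgebraicClosure K)
  let j : AlgebraicClosure F ≃ₐ[F] AlgebraicClosure K :=
    IsAlgClosure.equiv F (AlgebraicClosure F) (AlgebraicClosure K)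
  let r : Gal K →* Gal F :=
    (AlgEquiv.autCongr j.symm).toMonoidHom.comp (AlgEquiv.restrictScalarsHom F)
  have hr : ∀ (σ : Gal K) (x : AlgebraicClosure F), r σ x = j.symm (σ (j x)) := by
    intro σ x
    rfl
  refine ⟨j.toRingEquiv, r, ?_, ?_, ?_⟩
  · intro x
    show j (algebraMap F (AlgebraicClosure F) x) = _
    rw [AlgEquiv.commutes, ← IsScalarTower.algebraMap_apply F K (AlgebraicClosure K)]
  · intro σ x
    show j (r σ x) = σ (j x)
    rw [hr, AlgEquiv.apply_symm_apply]
  · intro Y hY
    have h1 : (Y : Set (Gal F)) ∈ nhds (1 : Gal F) := hY.mem_nhds Y.one_mem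
    obtain ⟨E, hE, hEY⟩ := (krullTopology_mem_nhds_one_iff F (AlgebraicClosure F) _).1 h1
    haveI := hE
    refine Subgroup.isOpen_of_mem_nhds (g := 1) _ ?_
    rw [krullTopology_mem_nhds_one_iff]
    let b := Module.finBasis F E
    let S : Set (AlgebraicClosure K) := Set.range fun i => j (b i : AlgebraicClosure F)
    haveI : Finite S := Set.finite_range _
    refine ⟨IntermediateField.adjoin K S, ?_, ?_⟩
    · exact IntermediateField.finiteDimensional_adjoin fun x _ =>
        Algebra.IsIntegral.isIntegral x
    · intro σ hσ
      show r σ ∈ Y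
      apply hEY
      have hb : ∀ i, r σ (b i : AlgebraicClosure F) = (b i : AlgebraicClosure F) := by
        intro i
        have h2 : σ (j (b i : AlgebraicClosure F)) = j (b i : AlgebraicClosure F) :=
          (IntermediateField.mem_fixingSubgroup_iff _ _).1 hσ _
            (IntermediateField.subset_adjoin K S ⟨i, rfl⟩)
        rw [hr, h2, AlgEquiv.symm_apply_apply]
      refine (IntermediateField.mem_fixingSubgroup_iff _ _).2 fun x hx => ?_
      have h3 := b.sum_repr ⟨x, hx⟩
      have h4 : x = ∑ i, (b.repr ⟨x, hx⟩) i • (b i : AlgebraicClosure F) := by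
        have := congrArg (fun y : E => (y : AlgebraicClosure F)) h3
        simp only [IntermediateField.coe_sum, IntermediateField.coe_smul] at this
        exact this.symm
      rw [h4, map_sum]
      refine Finset.sum_congr rfl fun i _ => ?_
      rw [Algebra.smul_def, map_mul, AlgEquiv.commutes, hb]

end REC
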